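import Mathlib

/-!
Grasshopper configurations: three pieces on a line can be enlargeable but need arbitrarily many
jumps for it.
-/

namespace Pool.Agent.Results.MP_59f6dc_co.ThreeOnALine

section Defs

variable {N : ℕ} {E : Type} [AddCommGroup E] [Module ℝ E]

/-- A legal jump: for some `i ≠ j` the piece `i` moves to its mirror image `2 p_j - p_i`. -/
def Jump (P Q : Fin N → E) : Prop :=
  ∃ i j : Fin N, i ≠ j ∧ Q = Function.update P i ((2 : ℝ) • P j - P i)

/-- `Q` is reached from `P` by a sequence of exactly `n` legal jumps. -/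
def Reach : ℕ → (Fin N → E) → (Fin N → E) → Prop
  | 0, P, Q => P = Q
  | (n + 1), P, Q => ∃ R, Jump P R ∧ Reach n R Q

end Defs

/-- `Q` is similar to `P` but larger: for some similarity `x ↦ c • R x + t` with `R` orthogonal
and `c > 1` the positions of `Q` are, up to a permutation of the pieces, the images of
the positions of `P`. -/
def SimilarLarger {N d : ℕ} (P Q : Fin N → EuclideanSpace ℝ (Fin d)) : Prop :=
  ∃ (c : ℝ) (R : EuclideanSpace ℝ (Fin d) ≃ₗᵢ[ℝ] EuclideanSpace ℝ (Fin d))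
    (t : EuclideanSpace ℝ (Fin d)) (π : Equiv.Perm (Fin N)),
    1 < c ∧ ∀ i, Q (π i) = c • R (P i) + t

/-- The lengths of the sequences of legal jumps that take `P` to a configuration that is similar
to `P` but larger. -/
def enlargingLengths {N d : ℕ} (P : Fin N → EuclideanSpace ℝ (Fin d)) : Set ℕ :=
  {n | ∃ Q, Reach n P Q ∧ SimilarLarger P Q}

/-- `P` is enlargeable. -/
def Enlargeable {N d : ℕ} (P : Fin N → EuclideanSpace ℝ (Fin d)) : Prop :=
  (enlargingLengths P).Nonempty

/-- The least length of a sequence of legal jumps taking `P` to a similar but larger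
configuration. -/
noncomputable def J {N d : ℕ} (P : Fin N → EuclideanSpace ℝ (Fin d)) : ℕ :=
  sInf (enlargingLengths P)

/-! ### Invariants -/

section Inv

variable {N : ℕ}

/-- Linear maps preserve jumps. -/
theorem Jump.map {E F : Type} [AddCommGroup E] [Module ℝ E] [AddCommGroup F] [Module ℝ F]
    (f : E →ₗ[ℝ] F) {P Q : Fin N → E} (h : Jump P Q) :
    Jump (fun i => f (P i)) (fun i => f (Q i)) := by
  obtain ⟨i, j, hij, rfl⟩ := h
  refine ⟨i, j, hij, ?_⟩
  ext k
  by_cases hk : k = i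
  · subst hk
    simp
  · simp [Function.update_of_ne hk]

theorem Reach.map {E F : Type} [AddCommGroup E] [Module ℝ E] [AddCommGroup F] [Module ℝ F]
    (f : E →ₗ[ℝ] F) {n : ℕ} : ∀ {P Q : Fin N → E}, Reach n P Q →
    Reach n (fun i => f (P i)) (fun i => f (Q i)) := by
  induction n with
  | zero => intro P Q h; simp only [Reach] at h ⊢; rw [h]
  | succ n ih =>
    rintro P Q ⟨R, h1, h2⟩
    exact ⟨_, h1.map f, ih h2⟩

theorem Reach.trans {E : Type} [AddCommGroup E] [Module ℝ E] {n m : ℕ} :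
    ∀ {P Q R : Fin N → E}, Reach n P Q → Reach m Q R → Reach (n + m) P R := by
  induction n with
  | zero => intro P Q R h1 h2; simp only [Reach] at h1; rw [h1, zero_add]; exact h2
  | succ n ih =>
    rintro P Q R ⟨S, h1, h2⟩ h3
    rw [show n + 1 + m = (n + m) + 1 by ring]
    exact ⟨S, h1, ih h2 h3⟩

/-- The group generated by the differences of the positions. -/
def G (p : Fin N → ℝ) : AddSubgroup ℝ :=
  AddSubgroup.closure {x | ∃ i j, x = p i - p j}

theorem diff_mem_G (p : Fin N → ℝ) (i j : Fin N) : p i - p j ∈ G p :=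
  AddSubgroup.subset_closure ⟨i, j, rfl⟩

theorem G_le_of_jump {p q : Fin N → ℝ} {i j : Fin N}
    (h : q = Function.update p i ((2 : ℝ) • p j - p i)) : G q ≤ G p := by
  unfold G
  rw [AddSubgroup.closure_le]
  rintro x ⟨a, b, rfl⟩
  have hi : q i = 2 * p j - p i := by rw [h]; simp
  have hne : ∀ k, k ≠ i → q k = p k := by
    intro k hk; rw [h, Function.update_of_ne hk]
  show q a - q b ∈ G p
  by_cases ha : a = i
  · by_cases hb : b = i
    · rw [ha, hb, sub_self]; exact (G p).zero_mem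
    · rw [ha, hi, hne b hb]
      have := (G p).add_mem (diff_mem_G p j i) (diff_mem_G p j b)
      convert this using 1
      ring
  · by_cases hb : b = i
    · rw [hb, hi, hne a ha]
      have := (G p).add_mem (diff_mem_G p i j) (diff_mem_G p a j)
      convert this using 1
      ring
    · rw [hne a ha, hne b hb]
      exact diff_mem_G p a b

theorem G_jump {p q : Fin N → ℝ} (h : Jump p q) : G q = G p := by
  obtain ⟨i, j, hij, h⟩ := h
  apply le_antisymm (G_le_of_jump h)
  apply G_le_of_jump (i := i) (j := j)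
  rw [h]
  ext k
  by_cases hk : k = i
  · subst hk
    simp [Function.update_of_ne hij.symm]
  · simp [Function.update_of_ne hk]

theorem G_reach {n : ℕ} : ∀ {p q : Fin N → ℝ}, Reach n p q → G q = G p := by
  induction n with
  | zero => intro p q h; simp only [Reach] at h; rw [h]
  | succ n ih =>
    rintro p q ⟨s, h1, h2⟩
    rw [ih h2, G_jump h1]

theorem diam_jump {p q : Fin N → ℝ} (h : Jump p q) {δ : ℝ} (hδ : ∀ i j, |p i - p j| ≤ δ) :
    ∀ i j, |q i - q j| ≤ 2 * δ := by
  obtain ⟨i, j, hij, h⟩ := h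
  have hi : q i = 2 * p j - p i := by rw [h]; simp
  have hne : ∀ k, k ≠ i → q k = p k := by
    intro k hk; rw [h, Function.update_of_ne hk]
  have hδ0 : 0 ≤ δ := le_trans (abs_nonneg _) (hδ i j)
  intro a b
  by_cases ha : a = i
  · by_cases hb : b = i
    · rw [ha, hb, sub_self, abs_zero]; linarith
    · rw [ha, hi, hne b hb]
      have h1 := hδ j i
      have h2 := hδ j b
      rw [abs_le] at h1 h2 ⊢
      constructor <;> linarith [h1.1, h1.2, h2.1, h2.2]
  · by_cases hb : b = i
    · rw [hb, hi, hne a ha]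
      have h1 := hδ j i
      have h2 := hδ j a
      rw [abs_le] at h1 h2 ⊢
      constructor <;> linarith [h1.1, h1.2, h2.1, h2.2]
    · rw [hne a ha, hne b hb]
      linarith [hδ a b]

theorem diam_reach {n : ℕ} : ∀ {p q : Fin N → ℝ} {δ : ℝ}, Reach n p q →
    (∀ i j, |p i - p j| ≤ δ) → ∀ i j, |q i - q j| ≤ 2 ^ n * δ := by
  induction n with
  | zero =>
    intro p q δ h hδ
    simp only [Reach] at h
    rw [← h]; simpa using hδ
  | succ n ih =>
    rintro p q δ ⟨s, h1, h2⟩ hδ i j
    have := ih h2 (diam_jump h1 hδ) i j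
    rw [pow_succ]
    linarith

end Inv

/-! ### The example -/

section Example

variable (m : ℕ)

/-- The square root of `m² + m`. -/
noncomputable def w : ℝ := √((m ^ 2 + m : ℕ) : ℝ)

/-- The position of the third piece. -/
noncomputable def r : ℝ := (w m - m) / m

theorem w_sq : w m ^ 2 = (m : ℝ) ^ 2 + m := by
  unfold w
  rw [Real.sq_sqrt (by positivity)]
  push_cast
  ring

variable {m}

theorem w_irr (hm : 1 ≤ m) : Irrational (w m) := by
  unfold w
  rw [irrational_sqrt_natCast_iff]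
  rintro ⟨k, hk⟩
  have h1 : m < k := by nlinarith
  have h2 : k < m + 1 := by nlinarith
  omega

theorem w_gt (hm : 1 ≤ m) : (m : ℝ) < w m := by
  unfold w
  apply Real.lt_sqrt_of_sq_lt
  push_cast
  have : (1 : ℝ) ≤ m := by exact_mod_cast hm
  linarith

theorem w_lt (hm : 1 ≤ m) : w m < m + 1 := by
  unfold w
  rw [Real.sqrt_lt' (by positivity)]
  push_cast
  have : (1 : ℝ) ≤ m := by exact_mod_cast hm
  nlinarith

theorem lin_zero (hm : 1 ≤ m) (a b : ℤ) (h : (a : ℝ) + b * w m = 0) : a = 0 ∧ b = 0 := by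
  have hb : b = 0 := by
    by_contra hb
    have hb' : (b : ℝ) ≠ 0 := by exact_mod_cast hb
    apply w_irr hm
    refine ⟨(-a : ℚ) / b, ?_⟩
    push_cast
    rw [div_eq_iff hb']
    linarith
  subst hb
  refine ⟨?_, rfl⟩
  have : (a : ℝ) = 0 := by simpa using h
  exact_mod_cast this

theorem mr (hm : 1 ≤ m) : (m : ℝ) * r m = w m - m := by
  unfold r
  have : (m : ℝ) ≠ 0 := by
    have : (1 : ℝ) ≤ m := by exact_mod_cast hm
    linarith
  field_simp

theorem r_quad (hm : 1 ≤ m) : (m : ℝ) * r m ^ 2 + 2 * m * r m - 1 = 0 := by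
  have h1 : (1 : ℝ) ≤ m := by exact_mod_cast hm
  have h2 := mr hm
  have h3 := w_sq m
  have h4 : (m : ℝ) * ((m : ℝ) * r m ^ 2 + 2 * m * r m - 1) = 0 := by
    have : (m : ℝ) * ((m : ℝ) * r m ^ 2 + 2 * m * r m - 1) =
      ((m : ℝ) * r m) ^ 2 + 2 * m * (m * r m) - m := by ring
    rw [this, h2]
    nlinarith
  rcases mul_eq_zero.1 h4 with h5 | h5
  · linarith
  · exact h5

theorem r_pos (hm : 1 ≤ m) : 0 < r m := by
  unfold r
  have h1 : (1 : ℝ) ≤ m := by exact_mod_cast hm
  have := w_gt hm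
  apply div_pos <;> linarith

theorem r_lt_one (hm : 1 ≤ m) : r m < 1 := by
  unfold r
  have h1 : (1 : ℝ) ≤ m := by exact_mod_cast hm
  have := w_lt hm
  rw [div_lt_one (by linarith)]
  linarith

/-- Positions `x, x + u, x + v`. -/
def cfg (x u v : ℝ) : Fin 3 → ℝ := ![x, x + u, x + v]

theorem jump_of (p q : Fin 3 → ℝ) (i j : Fin 3) (hij : i ≠ j)
    (h : ∀ k, q k = if k = i then 2 * p j - p i else p k) : Jump p q := by
  refine ⟨i, j, hij, ?_⟩
  ext k
  rw [h k]
  by_cases hk : k = i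
  · subst hk; simp
  · rw [if_neg hk, Function.update_of_ne hk]

theorem opA (x u v : ℝ) : Reach 2 (cfg x u v) (cfg (x - 2 * u) u (v + 2 * u)) := by
  refine ⟨![x, x - u, x + v], jump_of _ _ 1 0 (by decide) ?_, _,
    jump_of _ _ 0 1 (by decide) ?_, rfl⟩
  · intro k; fin_cases k <;> simp [cfg] <;> ring
  · intro k; fin_cases k <;> simp [cfg] <;> ring

theorem opB (x u v : ℝ) : Reach 2 (cfg x u v) (cfg (x - 2 * v) (u + 2 * v) v) := by
  refine ⟨![x, x + u, x - v], jump_of _ _ 2 0 (by decide) ?_, _,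
    jump_of _ _ 0 2 (by decide) ?_, rfl⟩
  · intro k; fin_cases k <;> simp [cfg] <;> ring
  · intro k; fin_cases k <;> simp [cfg] <;> ring

theorem opB_iter (k : ℕ) (x u v : ℝ) :
    Reach (2 * k) (cfg x u v) (cfg (x - 2 * k * v) (u + 2 * k * v) v) := by
  induction k with
  | zero => simp [Reach]
  | succ k ih =>
    have h := ih.trans (opB (x - 2 * k * v) (u + 2 * k * v) v)
    rw [show 2 * (k + 1) = 2 * k + 2 by ring]
    convert h using 2
    · push_cast; ring
    · push_cast; ring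

theorem reach_big (hm : 1 ≤ m) :
    ∃ n c t, 1 < c ∧ Reach n (cfg 0 1 (r m)) (fun i => c * cfg 0 1 (r m) i + t) := by
  have hr := r_pos hm
  have h1 : (1 : ℝ) ≤ m := by exact_mod_cast hm
  have hq := r_quad hm
  refine ⟨2 + 2 * m, 1 + 2 * m * (r m + 2), -2 - 2 * m * (r m + 2), ?_, ?_⟩
  · have : 0 < (m : ℝ) * (r m + 2) := by positivity
    linarith
  · have h := (opA 0 1 (r m)).trans (opB_iter m (0 - 2 * 1) 1 (r m + 2 * 1))
    convert h using 1
    ext k
    fin_cases k
    · simp [cfg]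
    · simp [cfg]; ring
    · simp [cfg]; linear_combination 2 * hq

/-- The integer combinations of `1` and `r`. -/
def Lam (m : ℕ) : AddSubgroup ℝ where
  carrier := {x | ∃ a b : ℤ, x = a + b * r m}
  add_mem' := by
    rintro _ _ ⟨a, b, rfl⟩ ⟨c, d, rfl⟩
    exact ⟨a + c, b + d, by push_cast; ring⟩
  zero_mem' := ⟨0, 0, by simp⟩
  neg_mem' := by
    rintro _ ⟨a, b, rfl⟩
    exact ⟨-a, -b, by push_cast; ring⟩

theorem G_le_Lam : G (cfg 0 1 (r m)) ≤ Lam m := by
  unfold G
  rw [AddSubgroup.closure_le]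
  have h : ∀ i, cfg 0 1 (r m) i ∈ Lam m := by
    intro i
    fin_cases i
    · exact ⟨0, 0, by simp [cfg]⟩
    · exact ⟨1, 0, by simp [cfg]⟩
    · exact ⟨0, 1, by simp [cfg]⟩
  rintro x ⟨i, j, rfl⟩
  exact (Lam m).sub_mem (h i) (h j)

theorem one_mem : (1 : ℝ) ∈ G (cfg 0 1 (r m)) := by
  have := diff_mem_G (cfg 0 1 (r m)) 1 0
  simpa [cfg] using this

theorem r_mem : r m ∈ G (cfg 0 1 (r m)) := by
  have := diff_mem_G (cfg 0 1 (r m)) 2 0
  simpa [cfg] using this

/-- Multipliers of the module are of the form `A + C w`. -/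
theorem multiplier (hm : 1 ≤ m) {x : ℝ} (h1 : x ∈ Lam m) (h2 : x * r m ∈ Lam m) :
    ∃ A C : ℤ, x = A + C * w m := by
  obtain ⟨a, b, hx⟩ := h1
  obtain ⟨c, d, hy⟩ := h2
  have hq := r_quad hm
  have hmr := mr hm
  -- `m x r = a (w - m) + b (1 - 2 (w - m))` and `m x r = m c + d (w - m)`
  have e : ((b + 2 * m * b - a * m - m * c + d * m : ℤ) : ℝ) +
      ((a - 2 * b - d : ℤ) : ℝ) * w m = 0 := by
    have h3 : (m : ℝ) * (x * r m) = a * (m * r m) + b * (m * r m ^ 2) := by rw [hx]; ring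
    have h4 : (m : ℝ) * (x * r m) = m * c + d * (m * r m) := by rw [hy]; ring
    have h5 : (m : ℝ) * r m ^ 2 = 1 - 2 * (w m - m) := by linarith
    rw [hmr] at h3 h4
    rw [h5] at h3
    push_cast
    linarith
  obtain ⟨e1, e2⟩ := lin_zero hm _ _ e
  have hd : d = a - 2 * b := by linarith
  subst hd
  have hb : b = m * c := by linarith
  refine ⟨a - c * m, c, ?_⟩
  rw [hx, hb]
  push_cast
  have : (m : ℝ) * c * r m = c * (m * r m) := by ring
  rw [this, hmr]
  ring

/-- A number `x` with `|x| > 1` and `x Λ = Λ` satisfies `|x| ≥ 2 m - 1`. -/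
theorem unit_large (hm : 1 ≤ m) {x y : ℝ} (hx1 : x ∈ Lam m) (hx2 : x * r m ∈ Lam m)
    (hy1 : y ∈ Lam m) (hy2 : y * r m ∈ Lam m) (hxy : x * y = 1) (hx : 1 < |x|) :
    2 * (m : ℝ) - 1 < |x| := by
  obtain ⟨A, C, rfl⟩ := multiplier hm hx1 hx2
  obtain ⟨A', C', rfl⟩ := multiplier hm hy1 hy2
  have hw := w_sq m
  have e : ((A * A' + C * C' * (m ^ 2 + m) - 1 : ℤ) : ℝ) + ((A * C' + A' * C : ℤ) : ℝ) * w m =
      0 := by
    push_cast
    linear_combination hxy - (C * C' : ℝ) * hw
  obtain ⟨e1, e2⟩ := lin_zero hm _ _ e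
  have hunit : (A ^ 2 - C ^ 2 * (m ^ 2 + m)) * (A' ^ 2 - C' ^ 2 * (m ^ 2 + m)) = 1 := by
    have h1 : A * A' + C * C' * (m ^ 2 + m) = 1 := by linarith
    calc (A ^ 2 - C ^ 2 * (m ^ 2 + m)) * (A' ^ 2 - C' ^ 2 * (m ^ 2 + m))
        = (A * A' + C * C' * (m ^ 2 + m)) ^ 2 - (m ^ 2 + m) * (A * C' + A' * C) ^ 2 := by ring
      _ = 1 := by rw [h1, e2]; ring
  have hnorm : |(A ^ 2 - C ^ 2 * (m ^ 2 + m) : ℤ)| = 1 :=
    Int.isUnit_iff_abs_eq.1 (IsUnit.of_mul_eq_one _ hunit)
  have hnormR : |(A : ℝ) + C * w m| * |(A : ℝ) - C * w m| = 1 := by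
    rw [← abs_mul]
    have : ((A : ℝ) + C * w m) * ((A : ℝ) - C * w m) =
        ((A ^ 2 - C ^ 2 * (m ^ 2 + m) : ℤ) : ℝ) := by
      push_cast
      linear_combination (-(C : ℝ) ^ 2) * hw
    rw [this, ← Int.cast_abs, hnorm]
    simp
  have hconj : |(A : ℝ) - C * w m| < 1 := by
    by_contra hcon
    push Not at hcon
    have : 1 < |(A : ℝ) + C * w m| * |(A : ℝ) - C * w m| := by
      calc (1 : ℝ) < |(A : ℝ) + C * w m| := hx
        _ = |(A : ℝ) + C * w m| * 1 := by ring
        _ ≤ |(A : ℝ) + C * w m| * |(A : ℝ) - C * w m| :=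
          mul_le_mul_of_nonneg_left hcon (abs_nonneg _)
    linarith
  have hC : C ≠ 0 := by
    rintro rfl
    simp at hx hconj
    linarith
  have hC1 : (1 : ℝ) ≤ |(C : ℝ)| := by
    have : 1 ≤ |C| := Int.one_le_abs hC
    exact_mod_cast this
  have hwm := w_gt hm
  have h2 : |2 * (C : ℝ) * w m| ≤ |(A : ℝ) + C * w m| + |(A : ℝ) - C * w m| := by
    have : 2 * (C : ℝ) * w m = ((A : ℝ) + C * w m) - ((A : ℝ) - C * w m) := by ring
    rw [this]
    exact abs_sub _ _
  have h3 : |2 * (C : ℝ) * w m| = 2 * |(C : ℝ)| * w m := by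
    have hm0 : (0 : ℝ) ≤ m := by positivity
    rw [abs_mul, abs_mul, abs_two, abs_of_nonneg (by linarith : 0 ≤ w m)]
  have hm0 : (0 : ℝ) ≤ m := by positivity
  have h4 : (m : ℝ) ≤ |(C : ℝ)| * w m := by nlinarith
  linarith

end Example

/-- Three pieces on a line: for every bound `B` there is an enlargeable configuration of three
pieces in dimension one that needs more than `B` jumps. -/
theorem result : ∀ B : ℕ, ∃ P : Fin 3 → EuclideanSpace ℝ (Fin 1), Enlargeable P ∧ B < J P := by
  intro B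
  set m : ℕ := 2 ^ B with hmdef
  have hm : 1 ≤ m := Nat.one_le_two_pow
  -- the line as a Euclidean space
  let f : ℝ →ₗ[ℝ] EuclideanSpace ℝ (Fin 1) :=
    LinearMap.toSpanSingleton ℝ _ (EuclideanSpace.single (0 : Fin 1) (1 : ℝ))
  let g : EuclideanSpace ℝ (Fin 1) →ₗ[ℝ] ℝ :=
    (EuclideanSpace.proj (0 : Fin 1) : EuclideanSpace ℝ (Fin 1) →L[ℝ] ℝ).toLinearMap
  have hgf : ∀ x, g (f x) = x := by
    intro x
    simp [f, g]
  have hfg : ∀ x, f (g x) = x := by
    intro x
    ext i
    have hi : i = 0 := Subsingleton.elim _ _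
    subst hi
    simp [f, g]
  let p : Fin 3 → ℝ := cfg 0 1 (r m)
  let P : Fin 3 → EuclideanSpace ℝ (Fin 1) := fun i => f (p i)
  have hP : Enlargeable P := by
    obtain ⟨n, c, t, hc, hreach⟩ := reach_big hm
    refine ⟨n, _, hreach.map f, c, LinearIsometryEquiv.refl ℝ _, f t, Equiv.refl _, hc, ?_⟩
    intro i
    show f (c * p i + t) = c • f (p i) + f t
    rw [map_add, ← smul_eq_mul, map_smul]
  refine ⟨P, hP, ?_⟩
  have hmem : J P ∈ enlargingLengths P := Nat.sInf_mem hP
  obtain ⟨Q, hreach, c, R, t, π, hc, hQ⟩ := hmem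
  set n := J P with hn
  -- pass to real numbers
  let q : Fin 3 → ℝ := fun i => g (Q i)
  have hreach' : Reach n p q := by
    have := hreach.map g
    have hp : (fun i => g (P i)) = p := by
      ext i; exact hgf _
    rw [hp] at this
    exact this
  -- the sign of the isometry
  set ε : ℝ := g (R (f 1)) with hε
  have hε1 : |ε| = 1 := by
    have h1 : ‖R (f 1)‖ = 1 := by
      rw [LinearIsometryEquiv.norm_map]
      simp [f]
    have h2 : ‖R (f 1)‖ = |ε| := by
      rw [EuclideanSpace.norm_eq]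
      simp only [Finset.univ_unique, Finset.sum_singleton, Fin.default_eq_zero, Fin.isValue]
      rw [Real.sqrt_sq (norm_nonneg _)]
      rfl
    rw [← h2, h1]
  have hR : ∀ x, g (R (f x)) = ε * x := by
    intro x
    have : f x = x • f 1 := by rw [← map_smul]; simp
    rw [this, map_smul, map_smul, smul_eq_mul, mul_comm]
  have hq : ∀ i, q (π i) = (c * ε) * p i + g t := by
    intro i
    show g (Q (π i)) = _
    rw [hQ i, map_add, map_smul]
    show c • g (R (f (p i))) + g t = _
    rw [hR, smul_eq_mul]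
    ring
  set μ : ℝ := c * ε with hμ
  have hμabs : |μ| = c := by
    rw [hμ, abs_mul, hε1, mul_one, abs_of_pos (by linarith)]
  have hμ0 : μ ≠ 0 := by
    intro h
    rw [h, abs_zero] at hμabs
    linarith
  -- the module of differences is multiplied by `μ`
  have hGq : G q = G p := G_reach hreach'
  have hmul : ∀ x ∈ G p, μ * x ∈ G q := by
    intro x hx
    induction hx using AddSubgroup.closure_induction with
    | mem x hx =>
      obtain ⟨i, j, rfl⟩ := hx
      have := diff_mem_G q (π i) (π j)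
      rw [hq, hq] at this
      convert this using 1
      ring
    | zero => rw [mul_zero]; exact (G q).zero_mem
    | add x y _ _ h1 h2 => rw [mul_add]; exact (G q).add_mem h1 h2
    | neg x _ h1 => rw [mul_neg]; exact (G q).neg_mem h1
  have hdiv : ∀ x ∈ G q, μ⁻¹ * x ∈ G p := by
    intro x hx
    induction hx using AddSubgroup.closure_induction with
    | mem x hx =>
      obtain ⟨i, j, rfl⟩ := hx
      have := diff_mem_G p (π.symm i) (π.symm j)
      have h1 := hq (π.symm i)
      have h2 := hq (π.symm j)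
      rw [Equiv.apply_symm_apply] at h1 h2
      rw [h1, h2]
      convert this using 1
      field_simp
      ring
    | zero => rw [mul_zero]; exact (G p).zero_mem
    | add x y _ _ h1 h2 => rw [mul_add]; exact (G p).add_mem h1 h2
    | neg x _ h1 => rw [mul_neg]; exact (G p).neg_mem h1
  have a1 : μ ∈ Lam m := by
    have := hmul 1 one_mem
    rw [hGq, mul_one] at this
    exact G_le_Lam this
  have a2 : μ * r m ∈ Lam m := by
    have := hmul (r m) r_mem
    rw [hGq] at this
    exact G_le_Lam this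
  have b1 : μ⁻¹ ∈ Lam m := by
    have := hdiv 1 (by rw [hGq]; exact one_mem)
    rw [mul_one] at this
    exact G_le_Lam this
  have b2 : μ⁻¹ * r m ∈ Lam m := by
    have := hdiv (r m) (by rw [hGq]; exact r_mem)
    exact G_le_Lam this
  have hlarge := unit_large hm a1 a2 b1 b2 (mul_inv_cancel₀ hμ0) (by rw [hμabs]; exact hc)
  -- the diameter
  have hd0 : ∀ i j, |p i - p j| ≤ 1 := by
    have h1 := r_pos hm
    have h2 := r_lt_one hm
    have h3 : ∀ i, 0 ≤ p i ∧ p i ≤ 1 := by
      intro i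
      fin_cases i
      · simp [p, cfg]
      · simp [p, cfg]
      · simp only [p, cfg]
        constructor
        · simpa using h1.le
        · simpa using h2.le
    intro i j
    rw [abs_le]
    constructor <;> linarith [(h3 i).1, (h3 i).2, (h3 j).1, (h3 j).2]
  have hd := diam_reach hreach' hd0 (π 1) (π 0)
  rw [hq, hq] at hd
  have e : μ * p 1 + g t - (μ * p 0 + g t) = μ := by simp [p, cfg]
  rw [e, mul_one] at hd
  have hfin : 2 * (m : ℝ) - 1 < 2 ^ n := lt_of_lt_of_le hlarge hd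
  have hm1 : (1 : ℝ) ≤ m := by exact_mod_cast hm
  have : (2 : ℝ) ^ B < 2 ^ n := by
    have : (m : ℝ) = 2 ^ B := by rw [hmdef]; push_cast; rfl
    rw [← this]
    linarith
  exact (pow_lt_pow_iff_right₀ (by norm_num : (1 : ℝ) < 2)).1 this

end Pool.Agent.Results.MP_59f6dc_co.ThreeOnALine
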